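import Mathlib
import Pool.Agent.H27.RC.Stmts

/-!
Module VOL of the project RC: a volume estimate gives one matrix which is good for many pairs of
subspaces.
-/

open scoped ENNReal NNReal InnerProductSpace
open MeasureTheory Metric

noncomputable section

namespace Pool.Agent.H82.RC

open Pool.Agent.H27.RC

section abstractVol

variable {V F : Type} [NormedAddCommGroup V] [NormedSpace ℝ V] [FiniteDimensional ℝ V]
  [MeasurableSpace V] [BorelSpace V]
  [NormedAddCommGroup F] [NormedSpace ℝ F] [FiniteDimensional ℝ F]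
  [MeasurableSpace F] [BorelSpace F]

theorem slice_bound (μ : Measure V) [μ.IsAddHaarMeasure] (S : Set V) (hS : MeasurableSet S)
    (hS1 : S ⊆ closedBall 0 1) (L : F →L[ℝ] V) (hL : ∀ q, ‖L q‖ ≤ 2 * ‖q‖) (t : ℝ) (ht : 0 < t)
    (hsl : ∀ z, ∃ c, {q | z - L q ∈ S} ⊆ ball c t) :
    μ S ≤ ENNReal.ofReal (t ^ Module.finrank ℝ F) * μ (closedBall 0 3) := by
  have : ProperSpace V := FiniteDimensional.proper ℝ V
  have : ProperSpace F := FiniteDimensional.proper ℝ F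
  let ρ : Measure F := Measure.addHaar
  let D : Set (V × F) := {p | ‖p.2‖ < 1 ∧ p.1 - L p.2 ∈ S}
  have hD : MeasurableSet D := by
    apply MeasurableSet.inter
    · exact (isOpen_lt (f := fun p : V × F => ‖p.2‖) (g := fun _ => 1)
        (by fun_prop) (by fun_prop)).measurableSet
    · exact (show Measurable fun p : V × F => p.1 - L p.2 by fun_prop) hS
  have h1 : (μ.prod ρ) D = μ S * ρ (ball 0 1) := by
    rw [Measure.prod_apply_symm hD]
    have : ∀ q : F, μ ((fun z => (z, q)) ⁻¹' D) = (ball (0 : F) 1).indicator (fun _ => μ S) q := by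
      intro q
      by_cases hq : ‖q‖ < 1
      · rw [Set.indicator_of_mem (by simpa using hq)]
        have : (fun z => (z, q)) ⁻¹' D = (fun z => z + (- L q)) ⁻¹' S := by
          ext z; simp [D, hq, sub_eq_add_neg]
        rw [this, measure_preimage_add_right]
      · rw [Set.indicator_of_notMem (by simpa using hq)]
        have : (fun z => (z, q)) ⁻¹' D = ∅ := by
          ext z; simp [D, hq]
        rw [this, measure_empty]
    simp_rw [this]
    rw [lintegral_indicator measurableSet_ball]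
    simp
  have h2 : (μ.prod ρ) D ≤ μ (closedBall 0 3) * ρ (ball 0 t) := by
    rw [Measure.prod_apply hD]
    have : ∀ z : V, ρ (Prod.mk z ⁻¹' D) ≤
        (closedBall (0 : V) 3).indicator (fun _ => ρ (ball 0 t)) z := by
      intro z
      by_cases hz : ‖z‖ ≤ 3
      · rw [Set.indicator_of_mem (by simpa using hz)]
        obtain ⟨c, hc⟩ := hsl z
        calc ρ (Prod.mk z ⁻¹' D) ≤ ρ (ball c t) := by
              apply measure_mono
              intro q hq
              exact hc hq.2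
          _ = ρ (ball 0 t) := Measure.addHaar_ball_center ρ c t
      · rw [Set.indicator_of_notMem (by simpa using hz)]
        have : Prod.mk z ⁻¹' D = ∅ := by
          ext q
          simp only [Set.mem_preimage, Set.mem_empty_iff_false, iff_false]
          rintro ⟨hq1, hq2⟩
          apply hz
          have h3 := hS1 hq2
          simp only [mem_closedBall, dist_zero_right] at h3
          have h4 := hL q
          simp only at hq1
          calc ‖z‖ = ‖(z - L q) + L q‖ := by simp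
            _ ≤ ‖z - L q‖ + ‖L q‖ := norm_add_le _ _
            _ ≤ 3 := by linarith
        rw [this, measure_empty]
    calc ∫⁻ z, ρ (Prod.mk z ⁻¹' D) ∂μ
        ≤ ∫⁻ z, (closedBall (0 : V) 3).indicator (fun _ => ρ (ball 0 t)) z ∂μ :=
          lintegral_mono this
      _ = μ (closedBall 0 3) * ρ (ball 0 t) := by
          rw [lintegral_indicator measurableSet_closedBall]
          simp [mul_comm]
  rw [h1, Measure.addHaar_ball_of_pos ρ 0 ht, ← mul_assoc] at h2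
  have h3 : ρ (ball (0 : F) 1) ≠ 0 := (measure_ball_pos ρ 0 one_pos).ne'
  have h4 : ρ (ball (0 : F) 1) ≠ ∞ := measure_ball_lt_top.ne
  have h5 := (ENNReal.mul_le_mul_iff_left h3 h4).1 h2
  rwa [mul_comm] at h5

omit [BorelSpace V] in
theorem net_bound (μ : Measure V) [μ.IsAddHaarMeasure] (B : Set V) (D : Set (V × F))
    (hD : MeasurableSet D) (τ : ℝ) (hτ : 0 < τ) (b : ℝ≥0∞) (hD2 : ∀ p ∈ D, ‖p.2‖ < 2)
    (hDb : ∀ u : F, μ {z | (z, u) ∈ D} ≤ b)
    (hB : ∀ z ∈ B, ∃ c, ball c τ ⊆ {u | (z, u) ∈ D}) :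
    μ B ≤ ENNReal.ofReal ((2 / τ) ^ Module.finrank ℝ F) * b := by
  have : ProperSpace V := FiniteDimensional.proper ℝ V
  have : ProperSpace F := FiniteDimensional.proper ℝ F
  let ν : Measure F := Measure.addHaar
  have h1 : ν (ball 0 τ) * μ B ≤ (μ.prod ν) D := by
    rw [Measure.prod_apply hD]
    calc ν (ball 0 τ) * μ B ≤ ν (ball 0 τ) * μ {z | ν (ball 0 τ) ≤ ν (Prod.mk z ⁻¹' D)} := by
          gcongr
          intro z hz
          obtain ⟨c, hc⟩ := hB z hz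
          simp only [Set.mem_ofPred_eq]
          rw [← Measure.addHaar_ball_center ν c τ]
          exact measure_mono hc
      _ ≤ ∫⁻ z, ν (Prod.mk z ⁻¹' D) ∂μ :=
          mul_meas_ge_le_lintegral (measurable_measure_prodMk_left hD) _
  have h2 : (μ.prod ν) D ≤ b * ν (ball 0 2) := by
    rw [Measure.prod_apply_symm hD]
    calc ∫⁻ u, μ ((fun z => (z, u)) ⁻¹' D) ∂ν
        ≤ ∫⁻ u, (ball (0 : F) 2).indicator (fun _ => b) u ∂ν := by
          apply lintegral_mono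
          intro u
          by_cases hu : ‖u‖ < 2
          · rw [Set.indicator_of_mem (by simpa using hu)]
            exact hDb u
          · rw [Set.indicator_of_notMem (by simpa using hu)]
            have : (fun z => (z, u)) ⁻¹' D = ∅ := by
              ext z
              simp only [Set.mem_preimage, Set.mem_empty_iff_false, iff_false]
              intro hz
              exact hu (hD2 _ hz)
            simp [this]
      _ = b * ν (ball 0 2) := by
          rw [lintegral_indicator measurableSet_ball]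
          simp
  have h3 := h1.trans h2
  rw [Measure.addHaar_ball_of_pos ν 0 hτ, Measure.addHaar_ball_of_pos ν 0 (two_pos)] at h3
  have h4 : ν (ball (0 : F) 1) ≠ 0 := (measure_ball_pos ν 0 one_pos).ne'
  have h5 : ν (ball (0 : F) 1) ≠ ∞ := measure_ball_lt_top.ne
  set n := Module.finrank ℝ F
  have h6 : ENNReal.ofReal (τ ^ n) * μ B * ν (ball (0 : F) 1) ≤
      ENNReal.ofReal (2 ^ n) * b * ν (ball (0 : F) 1) := by
    calc ENNReal.ofReal (τ ^ n) * μ B * ν (ball (0 : F) 1)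
        = ENNReal.ofReal (τ ^ n) * ν (ball (0 : F) 1) * μ B := by ring
      _ ≤ b * (ENNReal.ofReal (2 ^ n) * ν (ball (0 : F) 1)) := h3
      _ = _ := by ring
  have h7 := (ENNReal.mul_le_mul_iff_left h4 h5).1 h6
  have h8 : ENNReal.ofReal (2 ^ n) = ENNReal.ofReal ((2 / τ) ^ n) * ENNReal.ofReal (τ ^ n) := by
    rw [← ENNReal.ofReal_mul (by positivity), ← mul_pow, div_mul_cancel₀ _ hτ.ne']
  have h9 : ENNReal.ofReal (τ ^ n) ≠ 0 := by
    rw [Ne, ENNReal.ofReal_eq_zero, not_le]; positivity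
  have h10 : ENNReal.ofReal (τ ^ n) ≠ ∞ := ENNReal.ofReal_ne_top
  have h11 : μ B * ENNReal.ofReal (τ ^ n) ≤
      (ENNReal.ofReal ((2 / τ) ^ n) * b) * ENNReal.ofReal (τ ^ n) := by
    calc μ B * ENNReal.ofReal (τ ^ n) = ENNReal.ofReal (τ ^ n) * μ B := mul_comm _ _
      _ ≤ ENNReal.ofReal (2 ^ n) * b := h7
      _ = _ := by rw [h8]; ring
  exact (ENNReal.mul_le_mul_iff_left h9 h10).1 h11

end abstractVol

section hilbert

variable {E₁ E₂ : Type} [NormedAddCommGroup E₁] [InnerProductSpace ℂ E₁] [FiniteDimensional ℂ E₁]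
    [NormedAddCommGroup E₂] [InnerProductSpace ℂ E₂] [FiniteDimensional ℂ E₂]

local instance : FiniteDimensional ℝ (E₁ →L[ℂ] E₂) := FiniteDimensional.complexToReal _

theorem single_bound (μ : Measure (E₁ →L[ℂ] E₂)) [μ.IsAddHaarMeasure] (Q : Submodule ℂ E₂)
    (u : E₁) (hu1 : 1 / 2 ≤ ‖u‖) (hu2 : ‖u‖ ≤ 2) (τ : ℝ) (hτ : 0 < τ) :
    μ {z : E₁ →L[ℂ] E₂ | ‖z‖ ≤ 1 ∧ ‖Q.orthogonalProjectionOnto (z u)‖ < τ} ≤
      ENNReal.ofReal ((4 * τ) ^ (2 * Module.finrank ℂ Q)) * μ (closedBall 0 3) := by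
  let mQ : MeasurableSpace Q := borel Q
  have bQ : BorelSpace Q := ⟨rfl⟩
  have hfd : FiniteDimensional ℝ Q := FiniteDimensional.complexToReal _
  rw [← finrank_real_of_complex Q]
  let L₀ : Q →ₗ[ℝ] (E₁ →L[ℂ] E₂) :=
    { toFun := fun q => (innerSL ℂ u).smulRight (q : E₂)
      map_add' := by
        intro q q'
        ext x
        simp [smul_add]
      map_smul' := by
        intro c q
        ext x
        exact smul_comm (⟪u, x⟫_ℂ) c (q : E₂) }
  let L : Q →L[ℝ] (E₁ →L[ℂ] E₂) := LinearMap.toContinuousLinearMap L₀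
  have hLapp : ∀ (q : Q) (x : E₁), L q x = ⟪u, x⟫_ℂ • (q : E₂) := fun q x => rfl
  apply slice_bound μ _ _ _ L _ (4 * τ) (by linarith)
  · intro z
    have hu : 0 < ‖u‖ ^ 2 := by positivity
    refine ⟨(((‖u‖ ^ 2 : ℝ) : ℂ)⁻¹) • Q.orthogonalProjectionOnto (z u), ?_⟩
    rintro q ⟨hq1, hq2⟩
    rw [mem_ball, dist_eq_norm]
    have h1 : Q.orthogonalProjectionOnto ((z - L q) u) =
        Q.orthogonalProjectionOnto (z u) - ((‖u‖ ^ 2 : ℝ) : ℂ) • q := by
      rw [_root_.sub_apply, map_sub, hLapp, map_smul]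
      congr 1
      rw [Submodule.orthogonalProjectionOnto_mem_subspace_eq_self, inner_self_eq_norm_sq_to_K]
      norm_cast
    rw [h1] at hq2
    have h2 : q - (((‖u‖ ^ 2 : ℝ) : ℂ)⁻¹) • Q.orthogonalProjectionOnto (z u) =
        -((((‖u‖ ^ 2 : ℝ) : ℂ)⁻¹) •
          (Q.orthogonalProjectionOnto (z u) - ((‖u‖ ^ 2 : ℝ) : ℂ) • q)) := by
      rw [smul_sub, smul_smul, inv_mul_cancel₀, one_smul, neg_sub]
      exact_mod_cast hu.ne'
    rw [h2, norm_neg, norm_smul, norm_inv, Complex.norm_real, Real.norm_eq_abs, abs_of_pos hu]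
    have h3 : 1 / 4 ≤ ‖u‖ ^ 2 := by nlinarith
    have h4 : (‖u‖ ^ 2)⁻¹ ≤ 4 := by
      rw [inv_le_comm₀ hu (by norm_num)]
      linarith
    calc (‖u‖ ^ 2)⁻¹ * ‖Q.orthogonalProjectionOnto (z u) - ((‖u‖ ^ 2 : ℝ) : ℂ) • q‖
        ≤ 4 * ‖Q.orthogonalProjectionOnto (z u) - ((‖u‖ ^ 2 : ℝ) : ℂ) • q‖ := by gcongr
      _ < 4 * τ := by linarith
  · apply MeasurableSet.inter
    · exact (isClosed_le (f := fun z : E₁ →L[ℂ] E₂ => ‖z‖) (g := fun _ => 1)
        (by fun_prop) (by fun_prop)).measurableSet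
    · exact (isOpen_lt (f := fun z : E₁ →L[ℂ] E₂ => ‖Q.orthogonalProjectionOnto (z u)‖)
        (g := fun _ => τ) (by fun_prop) (by fun_prop)).measurableSet
  · rintro z ⟨hz, -⟩
    simpa using hz
  · intro q
    have : ‖L q‖ = ‖u‖ * ‖q‖ := by
      change ‖(innerSL ℂ u).smulRight (q : E₂)‖ = _
      rw [ContinuousLinearMap.norm_smulRight_apply, innerSL_apply_norm]
      rfl
    rw [this]
    gcongr

theorem bad_bound (μ : Measure (E₁ →L[ℂ] E₂)) [μ.IsAddHaarMeasure] (P : Submodule ℂ E₁)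
    (Q : Submodule ℂ E₂) (τ : ℝ) (hτ : 0 < τ) (hτ2 : τ ≤ 1 / 2) :
    μ {z : E₁ →L[ℂ] E₂ | ‖z‖ ≤ 1 ∧ ∃ u ∈ P, ‖u‖ = 1 ∧
        ‖Q.orthogonalProjectionOnto (z u)‖ < τ} ≤
      ENNReal.ofReal ((2 / τ) ^ (2 * Module.finrank ℂ P)) *
        (ENNReal.ofReal ((8 * τ) ^ (2 * Module.finrank ℂ Q)) * μ (closedBall 0 3)) := by
  let mP : MeasurableSpace P := borel P
  have bP : BorelSpace P := ⟨rfl⟩
  have hfd : FiniteDimensional ℝ P := FiniteDimensional.complexToReal _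
  rw [← finrank_real_of_complex P]
  let D : Set ((E₁ →L[ℂ] E₂) × P) := {p | ‖p.1‖ ≤ 1 ∧ (1 / 2 < ‖p.2‖ ∧ (‖p.2‖ < 2 ∧
    ‖Q.orthogonalProjectionOnto (p.1 (p.2 : E₁))‖ < 2 * τ))}
  have hprop : ProperSpace (E₁ →L[ℂ] E₂) := FiniteDimensional.proper ℝ _
  have hprop' : ProperSpace P := FiniteDimensional.proper ℝ _
  have hD : MeasurableSet D := by
    apply MeasurableSet.inter
    · exact (isClosed_le (f := fun p : (E₁ →L[ℂ] E₂) × P => ‖p.1‖) (g := fun _ => 1)
        (by fun_prop) (by fun_prop)).measurableSet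
    apply MeasurableSet.inter
    · exact (isOpen_lt (f := fun p : (E₁ →L[ℂ] E₂) × P => (1 / 2 : ℝ)) (g := fun p => ‖p.2‖)
        (by fun_prop) (by fun_prop)).measurableSet
    apply MeasurableSet.inter
    · exact (isOpen_lt (f := fun p : (E₁ →L[ℂ] E₂) × P => ‖p.2‖) (g := fun p => 2)
        (by fun_prop) (by fun_prop)).measurableSet
    · exact (isOpen_lt (f := fun p : (E₁ →L[ℂ] E₂) × P =>
        ‖Q.orthogonalProjectionOnto (p.1 (p.2 : E₁))‖) (g := fun p => 2 * τ)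
        (by fun_prop) (by fun_prop)).measurableSet
  apply net_bound μ _ D hD τ hτ
  · rintro p ⟨-, -, hp, -⟩
    exact hp
  · intro u
    by_cases hu : 1 / 2 < ‖u‖ ∧ ‖u‖ < 2
    · refine le_trans (measure_mono ?_)
        ((single_bound μ Q (u : E₁) hu.1.le hu.2.le (2 * τ) (by linarith)).trans_eq ?_)
      · rintro z ⟨h1, -, -, h2⟩
        exact ⟨h1, h2⟩
      · rw [← mul_assoc]; norm_num
    · have : {z | (z, u) ∈ D} = ∅ := by
        ext z
        simp only [Set.mem_ofPred_eq, Set.mem_empty_iff_false, iff_false]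
        rintro ⟨-, h1, h2, -⟩
        exact hu ⟨h1, h2⟩
      rw [this, measure_empty]
      exact bot_le
  · rintro z ⟨hz, u₀, hu₀, hu1, hu2⟩
    refine ⟨⟨u₀, hu₀⟩, ?_⟩
    intro u hu
    rw [mem_ball, dist_eq_norm] at hu
    have h1 : ‖(⟨u₀, hu₀⟩ : P)‖ = 1 := hu1
    have h2 : ‖u‖ ≤ ‖u - ⟨u₀, hu₀⟩‖ + ‖(⟨u₀, hu₀⟩ : P)‖ := by
      calc ‖u‖ = ‖(u - ⟨u₀, hu₀⟩) + ⟨u₀, hu₀⟩‖ := by rw [sub_add_cancel]
        _ ≤ _ := norm_add_le _ _
    have h3 : ‖(⟨u₀, hu₀⟩ : P)‖ ≤ ‖u‖ + ‖u - ⟨u₀, hu₀⟩‖ := by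
      calc ‖(⟨u₀, hu₀⟩ : P)‖ = ‖u - (u - ⟨u₀, hu₀⟩)‖ := by rw [sub_sub_cancel]
        _ ≤ _ := norm_sub_le _ _
    refine ⟨hz, by linarith, by linarith, ?_⟩
    have h4 : z (u : E₁) = z u₀ + z ((u : E₁) - u₀) := by
      rw [← map_add, add_sub_cancel]
    rw [h4, map_add]
    have h5 : ‖Q.orthogonalProjectionOnto (z ((u : E₁) - u₀))‖ ≤ ‖u - ⟨u₀, hu₀⟩‖ := by
      calc ‖Q.orthogonalProjectionOnto (z ((u : E₁) - u₀))‖ ≤ ‖z ((u : E₁) - u₀)‖ :=
            Submodule.norm_orthogonalProjectionOnto_apply_le _ _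
        _ ≤ ‖z‖ * ‖(u : E₁) - u₀‖ := z.le_opNorm _
        _ ≤ 1 * ‖(u : E₁) - u₀‖ := by gcongr
        _ = ‖u - ⟨u₀, hu₀⟩‖ := by rw [one_mul]; rfl
    calc ‖Q.orthogonalProjectionOnto (z u₀) + Q.orthogonalProjectionOnto (z ((u : E₁) - u₀))‖
        ≤ ‖Q.orthogonalProjectionOnto (z u₀)‖ +
          ‖Q.orthogonalProjectionOnto (z ((u : E₁) - u₀))‖ := norm_add_le _ _
      _ < 2 * τ := by linarith

theorem vol : VOLStmt := by
  intro E₁ E₂ _ _ _ _ _ _ d C K hC hK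
  let μ : Measure (E₁ →L[ℂ] E₂) := Measure.addHaar
  set D := Module.finrank ℂ E₂ with hDdef
  set A : ℝ := (μ (closedBall 0 3)).toReal with hA
  set B : ℝ := (μ (ball 0 1)).toReal with hB
  have hprop : ProperSpace (E₁ →L[ℂ] E₂) := FiniteDimensional.proper ℝ _
  have hAtop : μ (closedBall 0 3) ≠ ∞ := measure_closedBall_lt_top.ne
  have hBtop : μ (ball 0 1) ≠ ∞ := measure_ball_lt_top.ne
  have hBpos : 0 < B := ENNReal.toReal_pos (measure_ball_pos μ 0 one_pos).ne' hBtop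
  have hA0 : 0 ≤ A := ENNReal.toReal_nonneg
  set G : ℝ := 16 ^ (2 * D) * K ^ (d + 1) * A with hG
  have hG0 : 0 ≤ G := by positivity
  refine ⟨min 1 (min (1 / (2 * K)) (B / (2 * (C * G + 1)))), by positivity, ?_⟩
  intro δ hδ hδ' S hS hcard
  have hδ1 : δ ≤ 1 := hδ'.trans (min_le_left _ _)
  have hδ2 : δ ≤ 1 / (2 * K) := hδ'.trans ((min_le_right _ _).trans (min_le_left _ _))
  have hδ3 : δ ≤ B / (2 * (C * G + 1)) := hδ'.trans ((min_le_right _ _).trans (min_le_right _ _))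
  have hτ : 0 < K * δ := by positivity
  have hτ2 : K * δ ≤ 1 / 2 := by
    rw [le_div_iff₀ (by positivity)] at hδ2
    linarith
  let Bad : Submodule ℂ E₁ × Submodule ℂ E₂ → Set (E₁ →L[ℂ] E₂) := fun P =>
    {z : E₁ →L[ℂ] E₂ | ‖z‖ ≤ 1 ∧ ∃ u ∈ P.1, ‖u‖ = 1 ∧
        ‖P.2.orthogonalProjectionOnto (z u)‖ < K * δ}
  have hbad : ∀ P ∈ S, μ (Bad P) ≤ ENNReal.ofReal (G * δ ^ (d + 1)) := by
    intro P hP
    have h1 := hS P hP
    set p := Module.finrank ℂ P.1
    set q := Module.finrank ℂ P.2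
    have hq : q ≤ D := Submodule.finrank_le _
    refine (bad_bound μ P.1 P.2 (K * δ) hτ hτ2).trans ?_
    rw [← ENNReal.ofReal_toReal hAtop, ← ENNReal.ofReal_mul (by positivity),
      ← ENNReal.ofReal_mul (by positivity)]
    apply ENNReal.ofReal_le_ofReal
    obtain ⟨r, hr⟩ : ∃ r, 2 * q = 2 * p + (d + 1) + r := ⟨2 * q - (2 * p + (d + 1)), by omega⟩
    have h2 : (2 / (K * δ)) ^ (2 * p) * (8 * (K * δ)) ^ (2 * q) =
        2 ^ (2 * p) * 8 ^ (2 * q) * ((K * δ) ^ (d + 1) * (K * δ) ^ r) := by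
      rw [div_pow, mul_pow 8, hr]
      rw [pow_add (K * δ) (2 * p + (d + 1)), pow_add (K * δ) (2 * p)]
      field_simp
    have h3 : (2 : ℝ) ^ (2 * p) ≤ 2 ^ (2 * D) := pow_le_pow_right₀ (by norm_num) (by omega)
    have h4 : (8 : ℝ) ^ (2 * q) ≤ 8 ^ (2 * D) := pow_le_pow_right₀ (by norm_num) (by omega)
    have h5 : (K * δ) ^ r ≤ 1 := pow_le_one₀ hτ.le (by linarith)
    calc (2 / (K * δ)) ^ (2 * p) * ((8 * (K * δ)) ^ (2 * q) * A)
        = ((2 / (K * δ)) ^ (2 * p) * (8 * (K * δ)) ^ (2 * q)) * A := by ring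
      _ = (2 ^ (2 * p) * 8 ^ (2 * q) * ((K * δ) ^ (d + 1) * (K * δ) ^ r)) * A := by rw [h2]
      _ ≤ (2 ^ (2 * D) * 8 ^ (2 * D) * ((K * δ) ^ (d + 1) * 1)) * A := by gcongr
      _ = G * δ ^ (d + 1) := by
          have h16 : (2 : ℝ) ^ (2 * D) * 8 ^ (2 * D) = 16 ^ (2 * D) := by
            rw [← mul_pow]; norm_num
          rw [hG, h16, mul_pow]; ring
  have hunion : μ (⋃ P ∈ S, Bad P) < μ (ball 0 1) := by
    calc μ (⋃ P ∈ S, Bad P) ≤ ∑ P ∈ S, μ (Bad P) := measure_biUnion_finset_le _ _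
      _ ≤ ∑ P ∈ S, ENNReal.ofReal (G * δ ^ (d + 1)) := Finset.sum_le_sum hbad
      _ = ENNReal.ofReal (S.card * (G * δ ^ (d + 1))) := by
          rw [Finset.sum_const, nsmul_eq_mul,
            ENNReal.ofReal_mul (p := (S.card : ℝ)) (by positivity), ENNReal.ofReal_natCast]
      _ < ENNReal.ofReal B := by
          rw [ENNReal.ofReal_lt_ofReal_iff hBpos]
          have h6 : (S.card : ℝ) * (G * δ ^ (d + 1)) = (S.card * δ ^ d) * (G * δ) := by ring
          rw [h6]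
          have h7 : (S.card : ℝ) * δ ^ d * (G * δ) ≤ C * (G * δ) := by gcongr
          rw [le_div_iff₀ (by positivity)] at hδ3
          nlinarith
      _ = μ (ball 0 1) := ENNReal.ofReal_toReal hBtop
  obtain ⟨z, hz1, hz2⟩ : ∃ z ∈ ball (0 : E₁ →L[ℂ] E₂) 1, z ∉ ⋃ P ∈ S, Bad P := by
    by_contra hcon
    push Not at hcon
    exact absurd (measure_mono (μ := μ) hcon) (not_le.2 hunion)
  have hz3 : ‖z‖ ≤ 1 := by
    rw [mem_ball, dist_zero_right] at hz1
    exact hz1.le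
  refine ⟨z, hz3, ?_⟩
  intro P hP u hu
  by_cases hu0 : u = 0
  · refine ⟨0, zero_mem _, by simp, ?_⟩
    simp [hu0]
  have hupos : 0 < ‖u‖ := norm_pos_iff.2 hu0
  have h8 : K * δ * ‖u‖ ≤ ‖P.2.orthogonalProjectionOnto (z u)‖ := by
    by_contra hcon
    push Not at hcon
    apply hz2
    simp only [Set.mem_iUnion]
    refine ⟨P, hP, hz3, (((‖u‖⁻¹ : ℝ) : ℂ)) • u, P.1.smul_mem _ hu, ?_, ?_⟩
    · rw [norm_smul, Complex.norm_real, norm_inv, norm_norm, inv_mul_cancel₀ hupos.ne']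
    · rw [map_smul, map_smul, norm_smul, Complex.norm_real, norm_inv, norm_norm,
        inv_mul_lt_iff₀ hupos]
      linarith
  set w : E₂ := P.2.starProjection (z u) with hw
  have hwn : ‖w‖ = ‖P.2.orthogonalProjectionOnto (z u)‖ := rfl
  have hwpos : 0 < ‖w‖ := by
    rw [hwn]
    exact lt_of_lt_of_le (by positivity) h8
  have hwmem : w ∈ P.2 := Submodule.starProjection_apply_mem _ _
  refine ⟨((‖w‖⁻¹ : ℝ) : ℂ) • w, P.2.smul_mem _ hwmem, ?_, ?_⟩
  · rw [norm_smul, Complex.norm_real, norm_inv, norm_norm, inv_mul_cancel₀ hwpos.ne']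
  · have h9 : ⟪w, z u⟫_ℂ = ⟪w, w⟫_ℂ := by
      have h10 : ⟪w, z u - w⟫_ℂ = 0 := by
        rw [← inner_conj_symm, hw, Submodule.starProjection_inner_eq_zero _ _ hwmem, map_zero]
      rw [inner_sub_right, sub_eq_zero] at h10
      exact h10
    rw [inner_smul_left, h9, inner_self_eq_norm_sq_to_K, norm_mul]
    have : ‖(starRingEnd ℂ) ((‖w‖⁻¹ : ℝ) : ℂ)‖ * ‖((‖w‖ : ℂ)) ^ 2‖ = ‖w‖ := by
      rw [RCLike.norm_conj, Complex.norm_real, norm_inv, norm_norm, norm_pow, Complex.norm_real,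
        norm_norm]
      field_simp
    exact (h8.trans_eq hwn.symm).trans_eq this.symm

end hilbert

end Pool.Agent.H82.RC
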